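import Mathlib
import Pool.Agent.X316.GY.Main

/-!
# Cyclic covers with nonpositive canonical degree are not pseudo-Brody hyperbolic

MP_2a5ae2_ag, Q1, the direction from pseudo-Brody hyperbolicity to general type. The coordinates
`x 1, …, x n` have weights `a i`, an additional coordinate `x 0` has weight one and is put equal to
one. So `V : G j (x) = 0, u ^ m = F (x)` is an affine chart of the cyclic cover of degree `m`,
ramified over `F = 0`, of a weighted complete intersection of degrees `e j`; here `F` has degree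
`m * k` and `u` has weight `k`. The canonical bundle of the weighted complete intersection is
`O (∑ e j + (m - 1) * k - ∑ a i - 1)` by adjunction. For instance, for `a i = 1` and without the
equations `G j` these are the cyclic covers of `ℙⁿ` of degree `m` ramified over hypersurfaces of
degree `m * k`, with canonical bundle `O ((m - 1) * k - n - 1)`: Calabi-Yau varieties for
`(m - 1) * k = n + 1`. All singularities are allowed. Some of the weights may be zero: these are
families of such varieties, with arbitrary bases.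

Idea of the proof: by a dimension count there is through every point `x` with `F (x) ≠ 0` a rational
curve in the weighted complete intersection along which `F` is the product of an `m`-th power and
of the power with exponent `m / 2` of a polynomial of degree four (or with exponent `m / 3` of a
polynomial of degree three). The curves over it are of genus at most one.

`PN N` is the projective space over `ℂ`, `IsHolomorphicCurve f` means that `f : ℂ → PN N` is
holomorphic, and `ratImage V ξ` is the image of `V` under the rational map with the coordinates `ξ`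
(`Pool/Agent/W599/CB/Defs.lean`).
-/

set_option autoImplicit false

namespace Pool.Agent.Results.MP_2a5ae2_ag.CalabiYauCyclicCovers

open Pool.Agent.W599.CB

/-- the polynomial `H` has weighted degree at most `d` -/
def DegLe {n : ℕ} (a : Fin n → ℕ) (H : MvPolynomial (Fin n) ℂ) (d : ℕ) : Prop :=
  ∀ α ∈ H.support, ∑ i, a i * α i ≤ d

/-- the affine variety `G j (x) = 0`, `u ^ m = F (x)`; the last coordinate is `u` -/
def V {n s : ℕ} (m : ℕ) (G : Fin s → MvPolynomial (Fin n) ℂ) (F : MvPolynomial (Fin n) ℂ) :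
    Set (Fin (n + 1) → ℂ) :=
  {v | (∀ j, MvPolynomial.eval (Fin.init v) (G j) = 0) ∧
    v (Fin.last n) ^ m = MvPolynomial.eval (Fin.init v) F}

/-- The rational map with the coordinates `ξ` is defined at the point `P` of `V`, and its fibre
through `P` is finite. -/
def FiniteAt {n N : ℕ} (V : Set (Fin (n + 1) → ℂ)) (ξ : Fin (N + 1) → MvPolynomial (Fin (n + 1)) ℂ)
    (P : Fin (n + 1) → ℂ) : Prop :=
  ∃ h : (fun i => MvPolynomial.eval P (ξ i)) ≠ 0,
    {Q | Q ∈ V ∧ ∃ h' : (fun i => MvPolynomial.eval Q (ξ i)) ≠ 0,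
      Projectivization.mk ℂ _ h' = Projectivization.mk ℂ _ h}.Finite

/-- All entire curves in the closed subset `X` of the projective space lie in a proper closed
subset, given by a form `H` which does not vanish on `X`. -/
def PseudoBrody {N : ℕ} (X : Set (PN N)) : Prop :=
  ∃ (d : ℕ) (H : MvPolynomial (Fin (N + 1)) ℂ), H.IsHomogeneous d ∧
    (∃ y ∈ X, MvPolynomial.eval y.rep H ≠ 0) ∧
    ∀ f : ℂ → PN N, IsHolomorphicCurve f → (∀ z, f z ∈ X) → (∃ z z', f z ≠ f z') →
      ∀ z, MvPolynomial.eval (f z).rep H = 0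

/-- the coordinates `[1 : x : u]` of the embedding of the affine space in the projective space -/
noncomputable def emb (n : ℕ) : Fin (n + 1 + 1) → MvPolynomial (Fin (n + 1)) ℂ :=
  Fin.cons 1 MvPolynomial.X

/-- The set `V` is irreducible in the Zariski topology. -/
def Irred {n : ℕ} (V : Set (Fin n → ℂ)) : Prop :=
  V.Nonempty ∧ ∀ A B : MvPolynomial (Fin n) ℂ,
    (∀ v ∈ V, MvPolynomial.eval v A * MvPolynomial.eval v B = 0) →
      (∀ v ∈ V, MvPolynomial.eval v A = 0) ∨ ∀ v ∈ V, MvPolynomial.eval v B = 0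

theorem emb_eval {n : ℕ} (v : Fin (n + 1) → ℂ) :
    (fun i => MvPolynomial.eval v (emb n i)) = Fin.cons 1 v := by
  funext i
  refine Fin.cases ?_ (fun i => ?_) i
  · simp [emb]
  · simp [emb]

theorem emb_ne {n : ℕ} (v : Fin (n + 1) → ℂ) :
    (fun i => MvPolynomial.eval v (emb n i)) ≠ 0 := by
  rw [emb_eval]
  intro h
  have := congrFun h 0
  simp at this

theorem emb_inj {n : ℕ} {v w : Fin (n + 1) → ℂ}
    (h : Projectivization.mk ℂ _ (emb_ne v) = Projectivization.mk ℂ _ (emb_ne w)) : v = w := by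
  rw [Projectivization.mk_eq_mk_iff'] at h
  obtain ⟨c, hc⟩ := h
  rw [emb_eval, emb_eval] at hc
  have h0 := congrFun hc 0
  simp only [Pi.smul_apply, Fin.cons_zero, smul_eq_mul, mul_one] at h0
  subst h0
  rw [one_smul] at hc
  exact ((Fin.cons_injective2.eq_iff).1 hc).2.symm

/-- Let `V : G j (x) = 0, u ^ m = F (x)` be a cyclic cover of degree `m` of a weighted complete
intersection, of nonpositive canonical degree: `∑ e j + (m - 1) * k ≤ ∑ a i + 1`. Let `m` be even
and `k ≥ 2`, or let `m` be divisible by three. Let `ξ` be a rational map from `V` to a projective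
space, and let `X` be the closure of its image.

(1) Let `P = (x, u)` be any point of `V` with `u ≠ 0` such that `ξ` is defined at `P` and the fibre
through `P` is finite. Then there is a nonconstant entire curve in `X` such that the point `ξ (P)`
lies in the Zariski closure of its image.

(2) In particular, `X` is not pseudo-Brody hyperbolic if these points `ξ (P)` are Zariski-dense in
`X`.

(3) If `V` is irreducible and `F` does not vanish on `V`, then the projective closure of `V` is not
pseudo-Brody hyperbolic. -/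
theorem result {n s : ℕ} (a : Fin n → ℕ) (e : Fin s → ℕ) (m k : ℕ)
    (G : Fin s → MvPolynomial (Fin n) ℂ) (F : MvPolynomial (Fin n) ℂ)
    (hG : ∀ j, DegLe a (G j) (e j)) (hF : DegLe a F (m * k)) (hm : 0 < m)
    (hmk : (2 ∣ m ∧ 2 ≤ k) ∨ (3 ∣ m ∧ 1 ≤ k)) (hK : ∑ j, e j + (m - 1) * k ≤ ∑ i, a i + 1)
    {N : ℕ} (ξ : Fin (N + 1) → MvPolynomial (Fin (n + 1)) ℂ) :
    (∀ P ∈ V m G F, P (Fin.last n) ≠ 0 → FiniteAt (V m G F) ξ P →
      ∃ (h : (fun i => MvPolynomial.eval P (ξ i)) ≠ 0) (f : ℂ → PN N), IsHolomorphicCurve f ∧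
        (∀ z, f z ∈ zariskiClosure (ratImage (V m G F) ξ)) ∧ (∃ z z', f z ≠ f z') ∧
        Projectivization.mk ℂ _ h ∈ zariskiClosure (Set.range f)) ∧
    (zariskiClosure (ratImage {P | P ∈ V m G F ∧ P (Fin.last n) ≠ 0 ∧ FiniteAt (V m G F) ξ P} ξ) =
        zariskiClosure (ratImage (V m G F) ξ) →
      ¬ PseudoBrody (zariskiClosure (ratImage (V m G F) ξ))) ∧
    (Irred (V m G F) → (∃ P ∈ V m G F, MvPolynomial.eval (Fin.init P) F ≠ 0) →
      ¬ PseudoBrody (zariskiClosure (ratImage (V m G F) (emb n)))) := by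
  have key : ∀ (N : ℕ) (ξ : Fin (N + 1) → MvPolynomial (Fin (n + 1)) ℂ),
      ∀ P ∈ V m G F, P (Fin.last n) ≠ 0 → FiniteAt (V m G F) ξ P →
      ∃ (h : (fun i => MvPolynomial.eval P (ξ i)) ≠ 0) (f : ℂ → PN N), IsHolomorphicCurve f ∧
        (∀ z, f z ∈ zariskiClosure (ratImage (V m G F) ξ)) ∧ (∃ z z', f z ≠ f z') ∧
        Projectivization.mk ℂ _ h ∈ zariskiClosure (Set.range f) := by
    rintro N ξ P hP hu ⟨h, hfin⟩
    exact ⟨h, Pool.Agent.X316.GY.main a e m k G F hG hF hm hmk hK (V m G F) rfl ξ P hP hu h hfin⟩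
  have key2 : ∀ (N : ℕ) (ξ : Fin (N + 1) → MvPolynomial (Fin (n + 1)) ℂ),
      zariskiClosure (ratImage {P | P ∈ V m G F ∧ P (Fin.last n) ≠ 0 ∧ FiniteAt (V m G F) ξ P} ξ) =
        zariskiClosure (ratImage (V m G F) ξ) →
      ¬ PseudoBrody (zariskiClosure (ratImage (V m G F) ξ)) := by
    intro N ξ hd
    rintro ⟨d, H, hH, ⟨y, hy, hy0⟩, hc⟩
    apply hy0
    rw [← hd] at hy
    apply hy d H hH
    rintro _ ⟨P, ⟨hP, hu, hPf⟩, h', rfl⟩
    obtain ⟨h, f, hf, hfX, hfn, hPc⟩ := key N ξ P hP hu hPf
    refine hPc d H hH ?_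
    rintro _ ⟨z, rfl⟩
    exact hc f hf hfX hfn z
  refine ⟨key N ξ, key2 N ξ, fun hirr hF0 => key2 _ (emb n) ?_⟩
  obtain ⟨P0, hP0, hF0⟩ := hF0
  have hfib : ∀ P ∈ V m G F, FiniteAt (V m G F) (emb n) P := by
    intro P hP
    refine ⟨emb_ne P, Set.Finite.subset (Set.finite_singleton P) ?_⟩
    rintro Q ⟨-, h', hQ⟩
    exact emb_inj hQ
  apply Set.Subset.antisymm
  · intro y hy d H hH hH0
    refine hy d H hH ?_
    rintro _ ⟨P, hP, h', rfl⟩
    exact hH0 _ ⟨P, hP.1, h', rfl⟩
  · intro y hy d H hH hH0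
    refine hy d H hH ?_
    obtain ⟨H', hH'⟩ : ∃ H' : MvPolynomial (Fin (n + 1)) ℂ, H' = MvPolynomial.aeval (emb n) H :=
      ⟨_, rfl⟩
    have hev : ∀ (v : Fin (n + 1) → ℂ) (h : (fun i => MvPolynomial.eval v (emb n i)) ≠ 0),
        MvPolynomial.eval (Projectivization.mk ℂ _ h).rep H = 0 ↔ MvPolynomial.eval v H' = 0 := by
      intro v h
      have e : MvPolynomial.eval v (MvPolynomial.aeval (emb n) H) =
          MvPolynomial.eval (fun i => MvPolynomial.eval v (emb n i)) H :=
        MvPolynomial.comp_aeval_apply (emb n)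
          (MvPolynomial.aeval v : MvPolynomial (Fin (n + 1)) ℂ →ₐ[ℂ] ℂ) H
      rw [eval_rep hH h, hH', e]
    have hz := hirr.2 H' (MvPolynomial.X (Fin.last n)) (by
      intro v hv
      rw [MvPolynomial.eval_X]
      by_cases hv0 : v (Fin.last n) = 0
      · rw [hv0, mul_zero]
      · rw [(hev v (emb_ne v)).1 (hH0 _ ⟨v, ⟨hv, hv0, hfib v hv⟩, emb_ne v, rfl⟩), zero_mul])
    rintro _ ⟨v, hv, h', rfl⟩
    rw [hev v h']
    rcases hz with hz | hz
    · exact hz v hv
    · exfalso
      apply hF0
      have h1 := hz P0 hP0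
      rw [MvPolynomial.eval_X] at h1
      rw [← hP0.2, h1, zero_pow hm.ne']

end Pool.Agent.Results.MP_2a5ae2_ag.CalabiYauCyclicCovers
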