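import Mathlib
import Pool.Agent.X258.GS.Ex

/-!
MP_2a5ae2_ag, Q1: entire curves whose homogeneous coordinates are built from entire functions of
bounded growth by sums, products and exponentials.
-/

set_option autoImplicit false

namespace Pool.Agent.Results.MP_2a5ae2_ag.GrowthScales

open MvPolynomial Metric Set Filter Topology FF
open Pool.Agent.W602.GT Pool.Agent.TH143 Pool.Agent.TH143.GT Pool.Agent.W603.BP
  Pool.Agent.W603.BPR Pool.Agent.W603.GR Pool.Agent.W603.PV Pool.Agent.X258.EE
  Pool.Agent.X258.GS

/-- Let `X` be the quasi-projective variety with the homogeneous ideal `p` and the boundary `Q = 0`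
(`X` is projective if `Q = 1`). Let `S` be a growth scale, and consider the entire curves `f` in `X`
whose homogeneous coordinates belong to the smallest class `IterRing S` of functions which contains
the entire functions `h` of growth `S`, `log |h| ≤ l (|z|)` for some `l` in `S`, and which is closed
under sums, products and the exponential.

(1) If `f` is not of growth `S`, that is, if no functions `exp (g) * f`, with `g` an entire
function, are of growth `S`, then

(1a) through `f z`, for all `z` outside the zeros of an entire function `D` which is not identically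
zero, there passes a nonconstant morphism from the multiplicative group to `X`, a nonconstant
rational curve if `Q = 1`, with image in the Zariski closure of the image of `f`;

(1b) if the subvarieties of positive dimension of `X` which are not contained in `G = 0` are of log
general type, then `f` is contained in `G = 0`;

(1c) if `X` is of log general type, then `f` is not Zariski-dense.

(2) If `S` does not bound all the exponentials of its functions, then the Zariski closure of the
union of the curves `f` which are not of growth `S` is the Zariski closure of the union of the images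
of the nonconstant morphisms from the multiplicative group to `X`.

(3) If the coordinates of `f` are iterated exponential polynomials (built from constants and the
variable by sums, products and the exponential), then the conclusions of (1b) and (1c) hold in all
cases.

(4) Examples of growth scales: the `k`-fold iterated exponentials of the functions
`C + C log (1 + r)`, (the growth of the polynomials for `k = 0`, of the functions of finite order
for `k = 1`), and the functions `C (1 + r) ^ ρ`, for each `ρ > 0`. -/
theorem result {n : ℕ} (p : Ideal (MvPolynomial (Fin (n + 1)) ℂ)) (hp : IsHomog p)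
    (Q : MvPolynomial (Fin (n + 1)) ℂ) (q : ℕ) (hQ : Q.IsHomogeneous q) :
    (∀ S : Set (ℝ → ℝ), IsScale S →
      (∀ f, EntireCurve p Q f → (∀ j, IterRing S (fun z => f z j)) → ¬ CurveOfGrowth S f →
        (∃ D : ℂ → ℂ, Differentiable ℂ D ∧ (∃ z, D z ≠ 0) ∧
          ∀ z, D z ≠ 0 → GmCurveThrough (Van f) Q (f z)) ∧
        (∀ G : MvPolynomial (Fin (n + 1)) ℂ, IsForm G → SubLogGT p Q q G →
          ∀ z, eval (f z) G = 0) ∧
        ∀ (K : Type) [Field K] [Algebra ℂ K] (w : ℕ) (y : Fin (n + 1) → K), FunField p Q K w y →
          LogGeneralType ℂ K w (OffQ Q q y) → ¬ ZDense p f univ) ∧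
      ((∃ h, Grw S h ∧ ¬ Grw S (fun z => Complex.exp (h z))) →
        ∀ G : MvPolynomial (Fin (n + 1)) ℂ,
          ((∀ f, EntireCurve p Q f → (∀ j, IterRing S (fun z => f z j)) → ¬ CurveOfGrowth S f →
            ∀ z, eval (f z) G = 0) ↔
          ∀ x, GmCurveThrough (p : Set (MvPolynomial (Fin (n + 1)) ℂ)) Q x → eval x G = 0))) ∧
    (∀ f, EntireCurve p Q f → (∀ j, IterExp (fun z => f z j)) →
      (∀ G : MvPolynomial (Fin (n + 1)) ℂ, IsForm G → SubLogGT p Q q G →
        ∀ z, eval (f z) G = 0) ∧
      ∀ (K : Type) [Field K] [Algebra ℂ K] (w : ℕ) (y : Fin (n + 1) → K), FunField p Q K w y →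
        LogGeneralType ℂ K w (OffQ Q q y) → ¬ ZDense p f univ) ∧
    (∀ k, IsScale (Sc k)) ∧ ∀ ρ : ℝ, 0 < ρ → IsScale (Sr ρ) := by
  refine ⟨fun S hS => ⟨fun f hf hI hc => ⟨?_, fun G hG h z => ?_, fun K _ _ w y hy h hz =>
    hc (Pool.Agent.X258.GS.dense hS hQ hy h hf hI hz)⟩, ?_⟩, fun f hf hI =>
    ⟨fun G hG h z => iter_strong hp hQ hG h hf hI z,
      fun K _ _ w y hy h => iter_dense hQ hy h hf hI⟩, sc_scale, fun ρ hρ => sr_scale hρ⟩
  · obtain ⟨-, hne, hfQ, -⟩ := ent_data hf
    exact (growth_or_rat hS hQ hne hfQ hI).resolve_left hc
  · by_contra hz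
    exact hc (strong hS hp hQ hG h hf hI hz)
  · rintro ⟨h, hh, he⟩ G
    exact special_iff hS hp hQ hh he G

end Pool.Agent.Results.MP_2a5ae2_ag.GrowthScales
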