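import Pool.Agent.X316.PL.Main

/-!
MP_2a5ae2_ag, Q1: the Green-Griffiths-Lang property for projective varieties with a dominant
generically finite morphism to the plane which is ramified, with any mean multiplicity `μ > 1`
(for instance `μ = 2`), over an arbitrary line arrangement with sufficiently many lines and without
points of very high multiplicity.

A projective variety with a morphism to the plane is isomorphic to its graph, a closed subset
`X : BiSet N` of `P^N × P^2` given by bihomogeneous equations; `u` and `v` are homogeneous
coordinates of `P^N` and `P^2`. `X.MeanRamified ℓ μ`: if an analytic arc in `X` meets the lines `ℓ i`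
with the multiplicities `a i`, the mean of the nonzero numbers among the `a i` is at least `μ`. (For
smooth `X` this is satisfied if all components of the pull-backs of the lines have multiplicity at
least `μ`.)
-/

set_option autoImplicit false

namespace Pool.Agent.Results.MP_2a5ae2_ag.PlaneLineArrangements

open MvPolynomial Pool.Agent.W602.TL

/-- Let `μ > 1`, and let `ℓ i = 0`, `i < q`, be `q` distinct lines in the plane, at most `K` of them
through any point, with `4 μ^2 < q (μ - 1)^2` and `2 K μ < q (μ - 1)`. There is a plane algebraic
curve `R = 0` such that the following hold for all projective varieties `X` with a morphism to the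
plane which is ramified over the lines with mean multiplicity at least `μ`.

(1) Every entire curve in `X` is mapped into the curve `R = 0`, or to a point.

(2) If the morphism is dominant and generically finite, then `X` is pseudo-Brody hyperbolic: all
entire curves lie in a proper closed subset. -/
theorem result {q K : ℕ} {μ : ℝ} (hμ : 1 < μ) (h1 : 4 * μ ^ 2 < q * (μ - 1) ^ 2)
    (h2 : 2 * K * μ < q * (μ - 1)) (ℓ : Fin q → Fin 3 → ℂ)
    (hd : ∀ i j, i ≠ j → LinearIndependent ℂ ![ℓ i, ℓ j])
    (hc : ∀ x : Fin 3 → ℂ, x ≠ 0 →
      (Finset.univ.filter fun i => ∑ j, ℓ i j * x j = 0).card ≤ K) :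
    ∃ (R : MvPolynomial (Fin 3) ℂ) (e : ℕ), R.IsHomogeneous e ∧ R ≠ 0 ∧
      ∀ (N : ℕ) (X : BiSet N), X.MeanRamified ℓ μ →
        (∀ u v, X.EntireCurve u v → (∀ z, eval (v z) R = 0) ∨ ∀ z z', ∃ t : ℂ, v z' = t • v z) ∧
        (X.Dominant → X.GenFinite → X.PseudoBrody) :=
  Pool.Agent.X316.PL.main hμ h1 h2 ℓ hd hc

end Pool.Agent.Results.MP_2a5ae2_ag.PlaneLineArrangements
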