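import Pool.Agent.X316.ZG.Str
import Pool.Agent.X316.ZG.Zeta

/-!
# Entire curves built from the Riemann zeta function and other universal functions

A family `u` of meromorphic functions on the plane is called jointly universal if the translates of
every finite subfamily approximate all tuples of zero-free entire functions uniformly on some disc.
By Voronin's theorem this holds for the Riemann zeta function alone; it is also known for the
Dirichlet L-functions of the primitive characters and for the generic entire functions (Birkhoff).

Let `B` be the ring of all polynomials in the functions `u j` and their derivatives, for example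
`B = ℂ[ζ, ζ', ζ'', …]`. We consider the smallest set of meromorphic functions on the plane which
contains the quotients of the functions in `B` and is closed under sums, products and meromorphic
solutions of linear systems `y' = A y` with coefficients in the set (`IteratedOver B f` says that
the curve `f` has homogeneous coordinates in this set), and the curves which are algebraic over `B`
(`AlgebraicOver B f`). For all these curves the conjecture of Green, Griffiths and Lang holds, in the
strong form: the curve is constant, or it is contained in the locus of the rational curves.

The proof has two parts. By a theorem on iterated Picard-Vessiot towers (Y377/IL) a curve as above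
lies in the locus of the rational curves or is algebraic over `B`. For algebraic curves the
translates of the curve approximate, on small discs, curves along which all but the last derivative
of one of the functions `u j` are constant, and this last derivative is the exponential function;
the limits are rational curves, and they cover the closure of the curve.
-/

set_option autoImplicit false

namespace Pool.Agent.Results.MP_2a5ae2_ag.ZetaCurves

open Filter MvPolynomial
open scoped LinearAlgebra.Projectivization
open Pool.Agent.TH143.EL (HolMap InV)
open Pool.Agent.TH143.HE (RatCurvesIn)
open Pool.Agent.TH143.GT (Covered FunField Pluricanonical)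
open Pool.Agent.W602.GT (IsForm GeneralType)
open Pool.Agent.Y377.IL (IteratedOver AlgebraicOver)
open Pool.Agent.X316.ZG (JointlyUniversal dring)

/-- all forms that vanish on the curve `f` belong to the ideal `p` -/
def ZariskiDense {N : ℕ} (p : Ideal (MvPolynomial (Fin (N + 1)) ℂ))
    (f : ℂ → ℙ ℂ (Fin (N + 1) → ℂ)) : Prop :=
  ∀ G : MvPolynomial (Fin (N + 1)) ℂ, IsForm G → (∀ z, eval (f z).rep G = 0) → G ∈ p

/-- The varieties with the function field `E` are covered by rational curves, and all their
pluricanonical forms vanish. -/
def Uniruled (E : Type) [Field E] [Algebra ℂ E] : Prop :=
  Covered E ∧ ∀ v : ℕ, 0 < v → Algebra.trdeg ℂ E = v → ∀ n : ℕ, 0 < n →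
    ∀ ω : (Fin v → Derivation ℂ E E) → E, Pluricanonical v n ω → ω = 0

/-- The curve `f` is given by iterated linear differential equations over the ring of the
polynomials in the functions `u j` and their derivatives, or it is algebraic over this ring. -/
def BuiltFrom {N : ℕ} {ι : Type} (u : ι → ℂ → ℂ) (f : ℂ → ℙ ℂ (Fin (N + 1) → ℂ)) : Prop :=
  IteratedOver (dring u) f ∨ AlgebraicOver (dring u) f

/-- **The Green-Griffiths-Lang conjecture for the curves built from universal functions.**

(1) Let `u` be a jointly universal family and let `f` be a Zariski-dense entire curve, built from
`u`, in the projective variety `X` with the ideal `p`, the function field `K` and the generic point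
`y`. Then all images of `X` of positive dimension, in particular `X`, are covered by rational curves,
have no pluricanonical forms, and are not of general type. (The images of `X` correspond to the
fields `E` between `ℂ` and `K`.)

(2) Let `X = V(I)` be any projective algebraic set and let `V(I')` be an algebraic set which contains
all rational curves in `X`. An entire curve in `X` built from `u` lies in `V(I')` or is constant.

(3) The Riemann zeta function is universal. So (1) and (2) hold for the curves built from the Riemann
zeta function. -/
theorem result :
    (∀ (ι : Type) (u : ι → ℂ → ℂ), JointlyUniversal u →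
      (∀ (N : ℕ) (p : Ideal (MvPolynomial (Fin (N + 1)) ℂ)) (K : Type) [Field K] [Algebra ℂ K]
        (w : ℕ) (y : Fin (N + 1) → K), FunField p 1 K w y →
        ∀ f : ℂ → ℙ ℂ (Fin (N + 1) → ℂ), HolMap f → (∀ z, InV p (f z)) → ZariskiDense p f →
          BuiltFrom u f → ∀ (E : IntermediateField ℂ K) (v : ℕ), Algebra.trdeg ℂ E = v → 0 < v →
            Uniruled E ∧ ¬ GeneralType ℂ E v) ∧
      ∀ (N : ℕ) (I I' : Ideal (MvPolynomial (Fin (N + 1)) ℂ)), RatCurvesIn (RingHom.id ℂ) I I' →
        ∀ f : ℂ → ℙ ℂ (Fin (N + 1) → ℂ), HolMap f → (∀ z, InV I (f z)) → BuiltFrom u f →
          (∀ z, InV I' (f z)) ∨ ∀ z z', f z = f z') ∧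
    JointlyUniversal fun _ : Unit => riemannZeta := by
  refine ⟨fun ι u hu => ⟨fun N p K _ _ w y hy f hf hX hd hb E v hv hv0 => ?_,
    fun N I I' hR f hf hI hb => ?_⟩, Pool.Agent.X316.ZG.zeta_universal⟩
  · have hb' : IteratedOver (dring u) f := hb.elim id fun h =>
      Pool.Agent.Y377.IL.iterated_of_algebraic (Pool.Agent.X316.ZG.db_dring hu.mero) hf h
    obtain ⟨h1, h2⟩ := Pool.Agent.X316.ZG.main_curve hu hy hf hX hd hb' E hv hv0
    refine ⟨⟨h1, fun v' _ hv' => ?_⟩, Pool.Agent.Y377.IL.not_gt h2⟩
    have h3 : v' = v := by
      rw [hv] at hv'
      exact_mod_cast hv'.symm
    subst h3
    exact h2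
  · have hb' : IteratedOver (dring u) f := hb.elim id fun h =>
      Pool.Agent.Y377.IL.iterated_of_algebraic (Pool.Agent.X316.ZG.db_dring hu.mero) hf h
    exact Pool.Agent.X316.ZG.strong hu hR hf hb' hI

end Pool.Agent.Results.MP_2a5ae2_ag.ZetaCurves
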